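import Mathlib

/-!
# Blow-up lemma and the number of injective maps
-/

set_option autoImplicit false

namespace Pool.Agent.W327.HRC

open Finset

/-- the power mean inequality -/
lemma power_mean {β : Type*} [Fintype β] [Nonempty β] (f : β → ℝ) (hf : ∀ b, 0 ≤ f b) (P : ℕ) :
    (Fintype.card β : ℝ) * ((∑ b, f b) / Fintype.card β) ^ P ≤ ∑ b, f b ^ P := by
  have hN : (0 : ℝ) < Fintype.card β := by exact_mod_cast Fintype.card_pos
  cases P with
  | zero => simp
  | succ P =>
    have h2 := pow_sum_div_card_le_sum_pow (s := (univ : Finset β)) (f := f) (fun b _ => hf b) P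
    rw [Finset.card_univ] at h2
    refine le_trans (le_of_eq ?_) h2
    rw [div_pow]
    field_simp
    ring

/-- the blow-up lemma -/
lemma blow {α : Type*} [Fintype α] [Nonempty α] (K : ℕ) : ∀ (T : ℕ) (F : (Fin T → α) → ℝ),
    (∀ z, 0 ≤ F z) →
    (Fintype.card α : ℝ) ^ (T * K) * ((∑ z, F z) / (Fintype.card α : ℝ) ^ T) ^ (K ^ T) ≤
      ∑ H : Fin T → Fin K → α, ∏ c : Fin T → Fin K, F (fun g => H g (c g)) := by
  have hN : (0 : ℝ) < Fintype.card α := by exact_mod_cast Fintype.card_pos
  intro T
  induction T with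
  | zero =>
    intro F hF
    simp only [Nat.zero_mul, pow_zero, one_mul, div_one, pow_one, Finset.univ_unique,
      Finset.sum_singleton, Finset.prod_singleton]
    refine le_of_eq ?_
    congr 1
    exact Subsingleton.elim _ _
  | succ T ih =>
    intro F hF
    set n : ℝ := (Fintype.card α : ℝ) with hn
    -- split off the first coordinate
    have hsplit : ∑ H : Fin (T + 1) → Fin K → α,
        ∏ c : Fin (T + 1) → Fin K, F (fun g => H g (c g)) =
        ∑ h : Fin K → α, ∑ H' : Fin T → Fin K → α, ∏ c' : Fin T → Fin K,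
          ∏ k : Fin K, F (Fin.cons (h k) (fun g => H' g (c' g))) := by
      rw [← (Fin.consEquiv (fun _ : Fin (T + 1) => Fin K → α)).sum_comp, Fintype.sum_prod_type]
      refine Finset.sum_congr rfl fun h _ => Finset.sum_congr rfl fun H' _ => ?_
      rw [← (Fin.consEquiv (fun _ : Fin (T + 1) => Fin K)).prod_comp, Fintype.prod_prod_type,
        Finset.prod_comm]
      refine Finset.prod_congr rfl fun c' _ => Finset.prod_congr rfl fun k _ => ?_
      congr 1
      funext g
      refine Fin.cases ?_ (fun g => ?_) g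
      · simp [Fin.consEquiv]
      · simp [Fin.consEquiv]
    have hsum : ∑ z : Fin (T + 1) → α, F z = ∑ z' : Fin T → α, ∑ v : α, F (Fin.cons v z') := by
      rw [← (Fin.consEquiv (fun _ : Fin (T + 1) => α)).sum_comp, Fintype.sum_prod_type,
        Finset.sum_comm]
      rfl
    set A : (Fin K → α) → ℝ := fun h =>
      (∑ z' : Fin T → α, ∏ k : Fin K, F (Fin.cons (h k) z')) / n ^ T with hA
    have hA0 : ∀ h, 0 ≤ A h := fun h => div_nonneg (Finset.sum_nonneg fun z' _ =>
      Finset.prod_nonneg fun k _ => hF _) (pow_nonneg hN.le _)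
    have h1 : ∑ h : Fin K → α, n ^ (T * K) * A h ^ (K ^ T) ≤
        ∑ h : Fin K → α, ∑ H' : Fin T → Fin K → α, ∏ c' : Fin T → Fin K,
          ∏ k : Fin K, F (Fin.cons (h k) (fun g => H' g (c' g))) := by
      refine Finset.sum_le_sum fun h _ => ?_
      exact ih (fun z' => ∏ k : Fin K, F (Fin.cons (h k) z'))
        (fun z' => Finset.prod_nonneg fun k _ => hF _)
    have h2 : (n ^ K) * ((∑ h, A h) / n ^ K) ^ (K ^ T) ≤ ∑ h : Fin K → α, A h ^ (K ^ T) := by
      have h3 := power_mean A hA0 (K ^ T)
      rw [Fintype.card_fun, Fintype.card_fin] at h3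
      push_cast at h3
      exact h3
    have h4 : ((∑ z, F z) / n ^ T) ^ K ≤ ∑ h, A h := by
      have h5 : ∑ h, A h = (∑ z' : Fin T → α, (∑ v : α, F (Fin.cons v z')) ^ K) / n ^ T := by
        simp only [hA]
        rw [← Finset.sum_div, Finset.sum_comm]
        congr 1
        refine Finset.sum_congr rfl fun z' _ => ?_
        rw [← Fin.prod_const K (∑ v : α, F (Fin.cons v z')),
          Finset.prod_univ_sum]
        rw [Fintype.piFinset_univ]
      rw [h5, hsum]
      have h6 := power_mean (fun z' : Fin T → α => ∑ v : α, F (Fin.cons v z'))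
        (fun z' => Finset.sum_nonneg fun v _ => hF _) K
      rw [Fintype.card_fun, Fintype.card_fin] at h6
      push_cast at h6
      rw [le_div_iff₀ (pow_pos hN _)]
      rw [mul_comm]
      exact h6
    have h7 : (((∑ z, F z) / n ^ (T + 1)) ^ K) ^ (K ^ T) ≤ ((∑ h, A h) / n ^ K) ^ (K ^ T) := by
      refine pow_le_pow_left₀ (pow_nonneg (div_nonneg (Finset.sum_nonneg fun z _ => hF z)
        (pow_nonneg hN.le _)) _) ?_ _
      rw [le_div_iff₀ (pow_pos hN _), ← mul_pow]
      refine le_trans (le_of_eq ?_) h4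
      congr 1
      rw [pow_succ]
      field_simp
    rw [hsplit]
    refine le_trans ?_ h1
    rw [← Finset.mul_sum]
    calc n ^ ((T + 1) * K) * ((∑ z, F z) / n ^ (T + 1)) ^ (K ^ (T + 1))
        = n ^ (T * K) * (n ^ K * (((∑ z, F z) / n ^ (T + 1)) ^ K) ^ (K ^ T)) := by
          rw [← pow_mul, ← pow_succ', ← mul_assoc, ← pow_add]
          congr 2
          ring
      _ ≤ n ^ (T * K) * (n ^ K * ((∑ h, A h) / n ^ K) ^ (K ^ T)) := by
          refine mul_le_mul_of_nonneg_left ?_ (pow_nonneg hN.le _)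
          exact mul_le_mul_of_nonneg_left h7 (pow_nonneg hN.le _)
      _ ≤ n ^ (T * K) * ∑ h : Fin K → α, A h ^ (K ^ T) :=
          mul_le_mul_of_nonneg_left h2 (pow_nonneg hN.le _)

/-- the number of injective maps -/
lemma card_inj {ι α : Type*} [Fintype ι] [Fintype α] [Fintype (ι → α)]
    [DecidablePred fun f : ι → α => Function.Injective f]
    (h : Fintype.card ι ≤ Fintype.card α) :
    (Fintype.card α : ℝ) ^ (Fintype.card ι) *
      (1 - (Fintype.card ι : ℝ) ^ 2 / Fintype.card α) ≤
      ((univ.filter fun f : ι → α => Function.Injective f).card : ℝ) := by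
  have h1 : (univ.filter fun f : ι → α => Function.Injective f).card =
      (Fintype.card α).descFactorial (Fintype.card ι) := by
    classical
    rw [← Fintype.card_embedding_eq, ← Fintype.card_subtype]
    exact Fintype.card_congr (Equiv.subtypeInjectiveEquivEmbedding ι α)
  rw [h1]
  set N := Fintype.card α with hN
  set M := Fintype.card ι with hM
  have h2 : (N + 1 - M) ^ M ≤ N.descFactorial M := Nat.pow_sub_le_descFactorial N M
  rcases Nat.eq_zero_or_pos M with hM0 | hM0
  · rw [hM0]
    simp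
  have hN0 : (0 : ℝ) < N := by
    have : 0 < N := lt_of_lt_of_le hM0 h
    exact_mod_cast this
  have hMN : (M : ℝ) ≤ N := by exact_mod_cast h
  have h3 : ((N : ℝ) - M) ^ M ≤ (N.descFactorial M : ℝ) := by
    have h4 : ((N + 1 - M : ℕ) : ℝ) ^ M ≤ (N.descFactorial M : ℝ) := by exact_mod_cast h2
    refine le_trans (pow_le_pow_left₀ (by linarith) ?_ M) h4
    rw [Nat.cast_sub (by omega)]
    push_cast
    linarith
  refine le_trans ?_ h3
  have h5 : (N : ℝ) - M = N * (1 + (-(M / N : ℝ))) := by
    field_simp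
    ring
  rw [h5, mul_pow]
  refine mul_le_mul_of_nonneg_left ?_ (pow_nonneg hN0.le _)
  have h6 := one_add_mul_le_pow (a := -(M / N : ℝ)) (by
    have : (M : ℝ) / N ≤ 1 := by rw [div_le_one hN0]; exact hMN
    linarith) M
  refine le_trans (le_of_eq ?_) h6
  field_simp
  ring

end Pool.Agent.W327.HRC
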