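import Pool.Agent.W70.HRC.Stm
import Pool.Agent.W327.HRC.Blow

/-!
# Project HRC, part DEN1: Turan density with blow-up
-/

set_option autoImplicit false

namespace Pool.Agent.W327.HRC

open Finset Pool.Agent.W70.HRC

section mm

variable {α : Type*} [Fintype α] (w : α → α → Prop)

open Classical in
/-- the labelled cliques -/
noncomputable def cl (s : ℕ) : Finset (Fin s → α) :=
  univ.filter fun z => ∀ i j, i ≠ j → w (z i) (z j)

open Classical in
/-- the number of common neighbours -/
noncomputable def dg {s : ℕ} (y : Fin s → α) : ℕ := (univ.filter fun v : α => ∀ i, w (y i) v).card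

variable {w}

lemma mem_cl {s : ℕ} {z : Fin s → α} : z ∈ cl w s ↔ ∀ i j, i ≠ j → w (z i) (z j) := by
  classical
  simp [cl]

lemma insert_mem (hw : ∀ a b, w a b → w b a) {s : ℕ} (i : Fin (s + 1)) (v : α) (y : Fin s → α) :
    (i.insertNth v y : Fin (s + 1) → α) ∈ cl w (s + 1) ↔ y ∈ cl w s ∧ ∀ j, w (y j) v := by
  classical
  simp only [cl, Finset.mem_filter, Finset.mem_univ, true_and]
  constructor
  · intro h
    refine ⟨fun a b hab => ?_, fun j => ?_⟩
    · have h1 := h (i.succAbove a) (i.succAbove b) (fun h2 => hab (Fin.succAbove_right_injective h2))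
      simpa using h1
    · have h1 := h (i.succAbove j) i (Fin.succAbove_ne i j)
      simpa using h1
  · rintro ⟨h1, h2⟩ a b hab
    rcases Fin.eq_self_or_eq_succAbove i a with rfl | ⟨a, rfl⟩
    · rcases Fin.eq_self_or_eq_succAbove a b with rfl | ⟨b, rfl⟩
      · exact absurd rfl hab
      · simp only [Fin.insertNth_apply_same, Fin.insertNth_apply_succAbove]
        exact hw _ _ (h2 b)
    · rcases Fin.eq_self_or_eq_succAbove i b with rfl | ⟨b, rfl⟩
      · simp only [Fin.insertNth_apply_same, Fin.insertNth_apply_succAbove]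
        exact h2 a
      · simp only [Fin.insertNth_apply_succAbove]
        exact h1 a b (fun h3 => hab (by rw [h3]))

lemma sum_cl (hw : ∀ a b, w a b → w b a) {s : ℕ} (i : Fin (s + 1)) (g : (Fin s → α) → ℝ) :
    ∑ x ∈ cl w (s + 1), g (fun j => x (i.succAbove j)) = ∑ y ∈ cl w s, (dg w y : ℝ) * g y := by
  classical
  have h1 : ∑ x ∈ cl w (s + 1), g (fun j => x (i.succAbove j)) =
      ∑ x : Fin (s + 1) → α, if x ∈ cl w (s + 1) then g (fun j => x (i.succAbove j)) else 0 := by
    rw [← Finset.sum_filter]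
    congr 1
    ext x
    simp
  rw [h1, ← (Fin.insertNthEquiv (fun _ : Fin (s + 1) => α) i).sum_comp, Fintype.sum_prod_type,
    Finset.sum_comm]
  have h2 : ∑ y ∈ cl w s, (dg w y : ℝ) * g y =
      ∑ y : Fin s → α, if y ∈ cl w s then (dg w y : ℝ) * g y else 0 := by
    rw [← Finset.sum_filter]
    congr 1
    ext x
    simp
  rw [h2]
  refine Finset.sum_congr rfl fun y _ => ?_
  have h3 : ∀ v : α, (if (Fin.insertNthEquiv (fun _ : Fin (s + 1) => α) i) (v, y) ∈ cl w (s + 1) then
      g (fun j => (Fin.insertNthEquiv (fun _ : Fin (s + 1) => α) i) (v, y) (i.succAbove j)) else 0) =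
      if y ∈ cl w s ∧ ∀ j, w (y j) v then g y else 0 := by
    intro v
    have h4 : (Fin.insertNthEquiv (fun _ : Fin (s + 1) => α) i) (v, y) = i.insertNth v y := rfl
    rw [h4]
    have h5 : (fun j => (i.insertNth v y : Fin (s + 1) → α) (i.succAbove j)) = y := by
      funext j
      simp
    rw [h5]
    exact if_congr (insert_mem hw i v y) rfl rfl
  rw [Finset.sum_congr rfl fun v _ => h3 v]
  by_cases hy : y ∈ cl w s
  · rw [if_pos hy]
    simp only [hy, true_and]
    rw [← Finset.sum_filter, Finset.sum_const, nsmul_eq_mul]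
    rfl
  · simp [hy]

lemma card_succ (hw : ∀ a b, w a b → w b a) (s : ℕ) :
    ((cl w (s + 1)).card : ℝ) = ∑ y ∈ cl w s, (dg w y : ℝ) := by
  have h := sum_cl hw (0 : Fin (s + 1)) (fun _ => (1 : ℝ))
  simpa using h

lemma sum_dg {s : ℕ} (x : Fin (s + 1) → α) :
    ∑ i : Fin (s + 1), (dg w (fun j => x (i.succAbove j)) : ℝ) ≤
      s * (dg w x : ℝ) + Fintype.card α := by
  classical
  have h1 : ∑ i : Fin (s + 1), dg w (fun j => x (i.succAbove j)) ≤
      s * dg w x + Fintype.card α := by
    simp only [dg, Finset.card_filter]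
    rw [Finset.sum_comm, Finset.mul_sum, ← Finset.card_univ, Finset.card_eq_sum_ones,
      ← Finset.sum_add_distrib]
    refine Finset.sum_le_sum fun v _ => ?_
    by_cases hv : ∀ i, w (x i) v
    · rw [if_pos hv]
      have : ∀ i : Fin (s + 1), (if ∀ j, w (x (i.succAbove j)) v then 1 else 0) = 1 :=
        fun i => if_pos fun j => hv _
      simp only [this]
      simp
    · rw [if_neg hv]
      push Not at hv
      obtain ⟨i₀, hi₀⟩ := hv
      rw [mul_zero, zero_add]
      calc ∑ i : Fin (s + 1), (if ∀ j, w (x (i.succAbove j)) v then 1 else 0)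
          ≤ ∑ i : Fin (s + 1), (if i = i₀ then 1 else 0) := by
            refine Finset.sum_le_sum fun i _ => ?_
            by_cases hi : i = i₀
            · rw [if_pos hi]
              split_ifs <;> simp
            · rw [if_neg hi, if_neg]
              intro h
              rcases Fin.eq_self_or_eq_succAbove i i₀ with h2 | ⟨j, h2⟩
              · exact hi h2.symm
              · exact hi₀ (by rw [h2]; exact h j)
        _ = 1 := by simp
  exact_mod_cast h1

lemma moon_moser (hw : ∀ a b, w a b → w b a) (s : ℕ) :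
    ((s : ℝ) + 1) * ((cl w (s + 1)).card : ℝ) ^ 2 ≤ ((cl w s).card : ℝ) *
      (s * ((cl w (s + 2)).card : ℝ) + Fintype.card α * ((cl w (s + 1)).card : ℝ)) := by
  have h1 : ∑ x ∈ cl w (s + 1), ∑ i : Fin (s + 1), (dg w (fun j => x (i.succAbove j)) : ℝ) ≤
      ∑ x ∈ cl w (s + 1), (s * (dg w x : ℝ) + Fintype.card α) :=
    Finset.sum_le_sum fun x _ => sum_dg x
  rw [Finset.sum_comm, Finset.sum_add_distrib, ← Finset.mul_sum, ← card_succ hw (s + 1),
    Finset.sum_const, nsmul_eq_mul] at h1
  have h2 : ∀ i : Fin (s + 1), ∑ x ∈ cl w (s + 1), (dg w (fun j => x (i.succAbove j)) : ℝ) =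
      ∑ y ∈ cl w s, (dg w y : ℝ) ^ 2 := by
    intro i
    have h3 := sum_cl hw i (fun y => (dg w y : ℝ))
    rw [h3]
    exact Finset.sum_congr rfl fun y _ => by ring
  rw [Finset.sum_congr rfl fun i _ => h2 i, Finset.sum_const, nsmul_eq_mul, Finset.card_univ,
    Fintype.card_fin] at h1
  have h4 : ((cl w (s + 1)).card : ℝ) ^ 2 ≤ ((cl w s).card : ℝ) * ∑ y ∈ cl w s, (dg w y : ℝ) ^ 2 := by
    rw [card_succ hw s]
    exact sq_sum_le_card_mul_sum_sq
  push_cast at h1
  calc ((s : ℝ) + 1) * ((cl w (s + 1)).card : ℝ) ^ 2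
      ≤ ((s : ℝ) + 1) * (((cl w s).card : ℝ) * ∑ y ∈ cl w s, (dg w y : ℝ) ^ 2) :=
        mul_le_mul_of_nonneg_left h4 (by positivity)
    _ = ((cl w s).card : ℝ) * (((s : ℝ) + 1) * ∑ y ∈ cl w s, (dg w y : ℝ) ^ 2) := by ring
    _ ≤ _ := by
        refine mul_le_mul_of_nonneg_left ?_ (by positivity)
        linarith

lemma step (hw : ∀ a b, w a b → w b a) {s : ℕ} (hs : 1 ≤ s) {q : ℝ}
    (h0 : 0 < ((cl w s).card : ℝ))
    (hq : q * Fintype.card α * ((cl w s).card : ℝ) ≤ ((cl w (s + 1)).card : ℝ)) :
    (((s : ℝ) + 1) * q - 1) / s * Fintype.card α * ((cl w (s + 1)).card : ℝ) ≤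
      ((cl w (s + 2)).card : ℝ) := by
  have hmm := moon_moser hw s
  set a : ℝ := ((cl w s).card : ℝ) with ha
  set b : ℝ := ((cl w (s + 1)).card : ℝ) with hb
  set c : ℝ := ((cl w (s + 2)).card : ℝ) with hc
  set n : ℝ := (Fintype.card α : ℝ) with hnn
  have hb0 : 0 ≤ b := by rw [hb]; positivity
  have hs0 : (0 : ℝ) < s := by exact_mod_cast hs
  have h1 : b * (((s : ℝ) + 1) * (q * n * a)) ≤ a * (s * c + n * b) := by
    refine le_trans ?_ hmm
    have h2 : ((s : ℝ) + 1) * (q * n * a) ≤ ((s : ℝ) + 1) * b :=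
      mul_le_mul_of_nonneg_left hq (by positivity)
    calc b * (((s : ℝ) + 1) * (q * n * a)) ≤ b * (((s : ℝ) + 1) * b) :=
          mul_le_mul_of_nonneg_left h2 hb0
      _ = ((s : ℝ) + 1) * b ^ 2 := by ring
  have h3 : b * (((s : ℝ) + 1) * (q * n)) ≤ s * c + n * b := by
    refine le_of_mul_le_mul_left ?_ h0
    calc a * (b * (((s : ℝ) + 1) * (q * n))) = b * (((s : ℝ) + 1) * (q * n * a)) := by ring
      _ ≤ _ := h1
  rw [div_mul_eq_mul_div, div_mul_eq_mul_div, div_le_iff₀ hs0]
  nlinarith

lemma cl_zero_card : (cl w 0).card = 1 := by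
  classical
  simp [cl]

lemma cl_one_card : (cl w 1).card = Fintype.card α := by
  classical
  have h : cl w 1 = univ := by
    ext z
    simp only [cl, Finset.mem_filter, Finset.mem_univ, true_and, iff_true]
    intro i j hij
    exact absurd (Subsingleton.elim i j) hij
  rw [h, Finset.card_univ, Fintype.card_fun]
  simp

/-- many labelled cliques of order five -/
lemma cliques5 (hw : ∀ a b, w a b → w b a) {ε : ℝ} (hε : 0 < ε) (hn : 0 < Fintype.card α)
    (h2 : (3 / 4 + ε / 2) * (Fintype.card α : ℝ) ^ 2 ≤ ((cl w 2).card : ℝ)) :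
    3 / 16 * ε * (Fintype.card α : ℝ) ^ 5 ≤ ((cl w 5).card : ℝ) := by
  have hn' : (0 : ℝ) < Fintype.card α := by exact_mod_cast hn
  have h1 : ((cl w 1).card : ℝ) = Fintype.card α := by rw [cl_one_card]
  set n : ℝ := (Fintype.card α : ℝ) with hnn
  have e2 : (3 / 4 + ε / 2) * n * ((cl w 1).card : ℝ) ≤ ((cl w (1 + 1)).card : ℝ) := by
    rw [h1]
    refine le_trans (le_of_eq ?_) h2
    ring
  have p1 : 0 < ((cl w 1).card : ℝ) := by rw [h1]; exact hn'
  have p2 : 0 < ((cl w 2).card : ℝ) := lt_of_lt_of_le (by positivity) h2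
  have e3 := step hw (s := 1) le_rfl p1 e2
  norm_num at e3
  have p3 : 0 < ((cl w 3).card : ℝ) := by
    refine lt_of_lt_of_le ?_ e3
    have : 0 < 2 * (3 / 4 + ε / 2) - 1 := by linarith
    positivity
  have e4 := step hw (s := 2) (by norm_num) p2 (q := 2 * (3 / 4 + ε / 2) - 1) e3
  norm_num at e4
  have p4 : 0 < ((cl w 4).card : ℝ) := by
    refine lt_of_lt_of_le ?_ e4
    have : 0 < 3 * (2 * (3 / 4 + ε / 2) - 1) - 1 := by linarith
    positivity
  have e5 := step hw (s := 3) (by norm_num) p3 (q := (3 * (2 * (3 / 4 + ε / 2) - 1) - 1) / 2) e4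
  norm_num at e5
  have f5 : 2 * ε * n * ((cl w 4).card : ℝ) ≤ ((cl w 5).card : ℝ) := by
    refine le_trans (le_of_eq ?_) e5
    ring
  have f4 : 1 / 4 * n * ((cl w 3).card : ℝ) ≤ ((cl w 4).card : ℝ) := by
    refine le_trans ?_ e4
    refine mul_le_mul_of_nonneg_right ?_ p3.le
    refine mul_le_mul_of_nonneg_right ?_ hn'.le
    linarith
  have f3 : 1 / 2 * n * ((cl w 2).card : ℝ) ≤ ((cl w 3).card : ℝ) := by
    refine le_trans ?_ e3
    refine mul_le_mul_of_nonneg_right ?_ p2.le
    refine mul_le_mul_of_nonneg_right ?_ hn'.le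
    linarith
  have f2 : 3 / 4 * n ^ 2 ≤ ((cl w 2).card : ℝ) := by
    refine le_trans ?_ h2
    refine mul_le_mul_of_nonneg_right ?_ (by positivity)
    linarith
  calc 3 / 16 * ε * n ^ 5 = 2 * ε * n * (1 / 4 * n * (1 / 2 * n * (3 / 4 * n ^ 2))) := by ring
    _ ≤ 2 * ε * n * (1 / 4 * n * (1 / 2 * n * ((cl w 2).card : ℝ))) := by gcongr
    _ ≤ 2 * ε * n * (1 / 4 * n * ((cl w 3).card : ℝ)) := by gcongr
    _ ≤ 2 * ε * n * ((cl w 4).card : ℝ) := by gcongr
    _ ≤ _ := f5

end mm

/-- the injective families all of whose transversals are in `B` -/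
def Bl {α : Type*} {T K : ℕ} (B : Finset (Fin T → α)) (H : Fin T → Fin K → α) : Prop :=
  (∀ c : Fin T → Fin K, (fun g => H g (c g)) ∈ B) ∧
    Function.Injective (fun x : Fin T × Fin K => H x.1 x.2)

open Classical in
/-- many blown-up injective families -/
lemma blown {α : Type*} [Fintype α] [Nonempty α] (K T : ℕ) (B : Finset (Fin T → α)) {c : ℝ}
    (hc : 0 ≤ c) (hB : c * (Fintype.card α : ℝ) ^ T ≤ (B.card : ℝ))
    (hn : T * K ≤ Fintype.card α) :
    (Fintype.card α : ℝ) ^ (T * K) * (c ^ (K ^ T) - ((T * K : ℕ) : ℝ) ^ 2 / Fintype.card α) ≤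
      ((univ.filter fun H : Fin T → Fin K → α => Bl B H).card : ℝ) := by
  have hN : (0 : ℝ) < Fintype.card α := by exact_mod_cast Fintype.card_pos
  have h1 := blow K T (fun z : Fin T → α => if z ∈ B then (1 : ℝ) else 0)
    (fun z => by split_ifs <;> norm_num)
  have h2 : ∑ z : Fin T → α, (if z ∈ B then (1 : ℝ) else 0) = B.card := by
    rw [Finset.sum_ite_mem, Finset.univ_inter, Finset.sum_const, nsmul_eq_mul, mul_one]
  have h3 : ∑ H : Fin T → Fin K → α, ∏ c : Fin T → Fin K,
      (if (fun g => H g (c g)) ∈ B then (1 : ℝ) else 0) =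
      ((univ.filter fun H : Fin T → Fin K → α =>
        ∀ c : Fin T → Fin K, (fun g => H g (c g)) ∈ B).card : ℝ) := by
    rw [Finset.card_filter]
    push_cast
    refine Finset.sum_congr rfl fun H _ => ?_
    rw [Finset.prod_ite_zero]
    simp
  rw [h2, h3] at h1
  have h4 : (Fintype.card α : ℝ) ^ (T * K) * c ^ (K ^ T) ≤
      ((univ.filter fun H : Fin T → Fin K → α =>
        ∀ c : Fin T → Fin K, (fun g => H g (c g)) ∈ B).card : ℝ) := by
    refine le_trans ?_ h1
    refine mul_le_mul_of_nonneg_left ?_ (by positivity)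
    refine pow_le_pow_left₀ hc ?_ _
    rw [le_div_iff₀ (by positivity)]
    exact hB
  have h5 := card_inj (ι := Fin T × Fin K) (α := α) (by simpa using hn)
  have h6 : (univ.filter fun f : Fin T × Fin K → α => Function.Injective f).card =
      (univ.filter fun H : Fin T → Fin K → α =>
        Function.Injective (fun x : Fin T × Fin K => H x.1 x.2)).card := by
    refine Finset.card_bij' (fun f _ => Function.curry f) (fun H _ => Function.uncurry H) ?_ ?_ ?_ ?_
    · intro f hf
      rw [Finset.mem_filter] at hf ⊢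
      exact ⟨Finset.mem_univ _, hf.2⟩
    · intro H hH
      rw [Finset.mem_filter] at hH ⊢
      exact ⟨Finset.mem_univ _, hH.2⟩
    · intro f _
      rfl
    · intro H _
      rfl
  rw [h6] at h5
  simp only [Fintype.card_prod, Fintype.card_fin] at h5
  have h7 : ((univ.filter fun H : Fin T → Fin K → α =>
        ∀ c : Fin T → Fin K, (fun g => H g (c g)) ∈ B).card : ℝ) +
      ((univ.filter fun H : Fin T → Fin K → α =>
        Function.Injective (fun x : Fin T × Fin K => H x.1 x.2)).card : ℝ) ≤
      ((univ.filter fun H : Fin T → Fin K → α => Bl B H).card : ℝ) +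
        (Fintype.card α : ℝ) ^ (T * K) := by
    have h8 : (univ.filter fun H : Fin T → Fin K → α =>
        ∀ c : Fin T → Fin K, (fun g => H g (c g)) ∈ B).card +
      (univ.filter fun H : Fin T → Fin K → α =>
        Function.Injective (fun x : Fin T × Fin K => H x.1 x.2)).card ≤
      (univ.filter fun H : Fin T → Fin K → α => Bl B H).card +
        Fintype.card (Fin T → Fin K → α) := by
      have h11 : (univ.filter fun H : Fin T → Fin K → α => Bl B H) =
          (univ.filter fun H : Fin T → Fin K → α =>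
            ∀ c : Fin T → Fin K, (fun g => H g (c g)) ∈ B) ∩
          (univ.filter fun H : Fin T → Fin K → α =>
            Function.Injective (fun x : Fin T × Fin K => H x.1 x.2)) := by
        ext H
        simp only [Finset.mem_filter, Finset.mem_univ, true_and, Finset.mem_inter]
        exact Iff.rfl
      rw [h11, ← Finset.card_inter_add_card_union]
      exact Nat.add_le_add_left (Finset.card_le_univ _) _
    have h9 : Fintype.card (Fin T → Fin K → α) = Fintype.card α ^ (T * K) := by
      rw [Fintype.card_fun, Fintype.card_fun, Fintype.card_fin, Fintype.card_fin, ← pow_mul,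
        mul_comm K T]
    rw [h9] at h8
    exact_mod_cast h8
  have h10 : (Fintype.card α : ℝ) ^ (T * K) * (c ^ (K ^ T) - ((T * K : ℕ) : ℝ) ^ 2 / Fintype.card α)
      = (Fintype.card α : ℝ) ^ (T * K) * c ^ (K ^ T) +
        (Fintype.card α : ℝ) ^ (T * K) * (1 - ((T * K : ℕ) : ℝ) ^ 2 / Fintype.card α) -
        (Fintype.card α : ℝ) ^ (T * K) := by ring
  rw [h10]
  linarith

theorem den1 : S_DEN1 := by
  classical
  intro K hK ε hε
  set c : ℝ := 3 / 16 * ε with hc
  have hc0 : 0 < c := by positivity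
  set c' : ℝ := c ^ (K ^ 5) with hc'
  have hc'0 : 0 < c' := by positivity
  refine ⟨c' / 4, ⌈2 / ε⌉₊ + ⌈2 * ((5 * K : ℕ) : ℝ) ^ 2 / c'⌉₊ + 5 * K + 1, by positivity, ?_⟩
  intro V G hV hEx
  by_contra hcon
  push Not at hcon
  have hVc : Fintype.card {x // x ∈ V} = V.card := Fintype.card_coe V
  have hVpos : 0 < V.card := by omega
  have : Nonempty {x // x ∈ V} := by
    rw [← Fintype.card_pos_iff, hVc]
    exact hVpos
  have hn0 : (0 : ℝ) < V.card := by exact_mod_cast hVpos
  have hn1 : 2 / ε ≤ V.card := by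
    refine le_trans (Nat.le_ceil _) ?_
    exact_mod_cast (show ⌈2 / ε⌉₊ ≤ V.card by omega)
  have hn2 : 2 * ((5 * K : ℕ) : ℝ) ^ 2 / c' ≤ V.card := by
    refine le_trans (Nat.le_ceil _) ?_
    exact_mod_cast (show ⌈2 * ((5 * K : ℕ) : ℝ) ^ 2 / c'⌉₊ ≤ V.card by omega)
  set n : ℝ := (V.card : ℝ) with hn
  let w : {x // x ∈ V} → {x // x ∈ V} → Prop := fun a b => a ≠ b ∧ ¬ G {a.1, b.1}
  have hw : ∀ a b, w a b → w b a := by
    rintro a b ⟨h1, h2⟩
    exact ⟨h1.symm, by rw [Finset.pair_comm]; exact h2⟩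
  -- the number of bad ordered pairs
  have h2 : (3 / 4 + ε / 2) * (Fintype.card {x // x ∈ V} : ℝ) ^ 2 ≤ ((cl w 2).card : ℝ) := by
    rw [hVc, ← hn]
    have e1 : Fintype.card (Fin 2 → {x // x ∈ V}) ≤
        (univ.filter fun z : Fin 2 → {x // x ∈ V} => z 0 = z 1).card +
        (univ.filter fun z : Fin 2 → {x // x ∈ V} => z 0 ≠ z 1 ∧ G {(z 0).1, (z 1).1}).card +
        (cl w 2).card := by
      rw [← Finset.card_univ]
      refine le_trans (Finset.card_le_card (t := ((univ.filter fun z : Fin 2 → {x // x ∈ V} =>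
        z 0 = z 1) ∪ (univ.filter fun z : Fin 2 → {x // x ∈ V} => z 0 ≠ z 1 ∧
          G {(z 0).1, (z 1).1})) ∪ cl w 2) ?_) ?_
      · intro z _
        rw [Finset.mem_union, Finset.mem_union, Finset.mem_filter, Finset.mem_filter, mem_cl]
        by_cases h1 : z 0 = z 1
        · exact Or.inl (Or.inl ⟨Finset.mem_univ _, h1⟩)
        · by_cases h2 : G {(z 0).1, (z 1).1}
          · exact Or.inl (Or.inr ⟨Finset.mem_univ _, h1, h2⟩)
          · refine Or.inr ?_
            intro i j hij
            have h01 : w (z 0) (z 1) := ⟨h1, h2⟩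
            fin_cases i <;> fin_cases j
            · exact absurd rfl hij
            · exact h01
            · exact hw _ _ h01
            · exact absurd rfl hij
      · refine le_trans (Finset.card_union_le _ _) ?_
        exact Nat.add_le_add_right (Finset.card_union_le _ _) _
    have e2 : (univ.filter fun z : Fin 2 → {x // x ∈ V} => z 0 = z 1).card ≤ V.card := by
      rw [← hVc, ← Finset.card_univ]
      refine Finset.card_le_card_of_injOn (fun z => z 0) (fun z _ => Finset.mem_univ _) ?_
      intro z hz z' hz' h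
      simp only [Finset.coe_filter, Finset.mem_univ, true_and, Set.mem_ofPred_eq] at hz hz'
      have h : z 0 = z' 0 := h
      funext i
      fin_cases i
      · exact h
      · change z 1 = z' 1
        rw [← hz, ← hz', h]
    have e3 : ((univ.filter fun z : Fin 2 → {x // x ∈ V} => z 0 ≠ z 1 ∧
        G {(z 0).1, (z 1).1}).card : ℝ) < (1 / 4 - ε) * n ^ 2 := by
      refine lt_of_le_of_lt ?_ hcon
      have : (univ.filter fun z : Fin 2 → {x // x ∈ V} => z 0 ≠ z 1 ∧
          G {(z 0).1, (z 1).1}).card ≤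
          ((Fintype.piFinset (fun _ : Fin (1 + 1) => V)).filter (fun y => Function.Injective y ∧
            G (univ.image y))).card := by
        refine Finset.card_le_card_of_injOn (fun z => fun i => (z i).1) ?_ ?_
        · intro z hz
          simp only [Finset.coe_filter, Finset.mem_univ, true_and, Set.mem_ofPred_eq] at hz
          simp only [Finset.coe_filter, Set.mem_ofPred_eq, Fintype.mem_piFinset]
          refine ⟨fun i => (z i).2, ?_, ?_⟩
          · intro i j hij
            have hij : (z i).1 = (z j).1 := hij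
            have hij' : z i = z j := Subtype.ext hij
            fin_cases i <;> fin_cases j
            · rfl
            · exact absurd hij' hz.1
            · exact absurd hij'.symm hz.1
            · rfl
          · have h3 : (univ.image fun i : Fin (1 + 1) => (z i).1) = {(z 0).1, (z 1).1} := by
              ext a
              simp only [Finset.mem_image, Finset.mem_univ, true_and, Finset.mem_insert,
                Finset.mem_singleton]
              constructor
              · rintro ⟨i, rfl⟩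
                fin_cases i
                · exact Or.inl rfl
                · exact Or.inr rfl
              · rintro (rfl | rfl)
                · exact ⟨0, rfl⟩
                · exact ⟨1, rfl⟩
            rw [h3]
            exact hz.2
        · intro z _ z' _ h
          funext i
          exact Subtype.ext (congrFun h i)
      exact_mod_cast this
    have e4 : (Fintype.card (Fin 2 → {x // x ∈ V}) : ℝ) = n ^ 2 := by
      rw [Fintype.card_fun, Fintype.card_fin, hVc]
      push_cast
      rfl
    have e5 : n ^ 2 ≤ n + (1 / 4 - ε) * n ^ 2 + ((cl w 2).card : ℝ) := by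
      rw [← e4]
      have e6 : (Fintype.card (Fin 2 → {x // x ∈ V}) : ℝ) ≤
          ((univ.filter fun z : Fin 2 → {x // x ∈ V} => z 0 = z 1).card : ℝ) +
          ((univ.filter fun z : Fin 2 → {x // x ∈ V} => z 0 ≠ z 1 ∧
            G {(z 0).1, (z 1).1}).card : ℝ) + ((cl w 2).card : ℝ) := by exact_mod_cast e1
      have e7 : ((univ.filter fun z : Fin 2 → {x // x ∈ V} => z 0 = z 1).card : ℝ) ≤
          (V.card : ℝ) := by
        exact_mod_cast e2
      rw [← hn] at e7
      rw [e4] at e6 ⊢
      linarith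
    have e8 : n ≤ ε / 2 * n ^ 2 := by
      have e9 : 2 ≤ n * ε := by rwa [div_le_iff₀ hε] at hn1
      nlinarith
    nlinarith
  have h5 := cliques5 hw hε (by rw [hVc]; exact hVpos) h2
  have h6 := blown K 5 (cl w 5) hc0.le h5 (by rw [hVc]; omega)
  rw [hVc, ← hn] at h6
  -- the exceptional families
  have h7 : (univ.filter fun H : Fin 5 → Fin K → {x // x ∈ V} => Bl (cl w 5) H).card ≤
      (ExC G 1 5 K V).card := by
    refine Finset.card_le_card_of_injOn (fun H => fun g k => (H g k).1) ?_ ?_
    · intro H hH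
      simp only [Finset.coe_filter, Finset.mem_univ, true_and, Set.mem_ofPred_eq] at hH
      obtain ⟨hH1, hH2⟩ := hH
      rw [ExC, Finset.mem_coe, Finset.mem_filter]
      refine ⟨?_, ?_, ?_⟩
      · rw [Fintype.mem_piFinset]
        intro g
        rw [Fintype.mem_piFinset]
        exact fun k => (H g k).2
      · exact Subtype.val_injective.comp hH2
      · rintro ⟨S, c, hS, hG⟩
        obtain ⟨g, g', hgg, rfl⟩ := Finset.card_eq_two.1 hS
        have h8 := mem_cl.1 (hH1 c)
        have h9 := h8 g g' hgg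
        rw [Finset.image_insert, Finset.image_singleton] at hG
        exact h9.2 hG
    · intro H _ H' _ h
      funext g k
      exact Subtype.ext (congrFun (congrFun h g) k)
  have h8 : n ^ (5 * K) * (c' - ((5 * K : ℕ) : ℝ) ^ 2 / n) ≤ c' / 4 * n ^ (5 * K) := by
    refine le_trans h6 (le_trans ?_ hEx)
    exact_mod_cast h7
  have h9 : ((5 * K : ℕ) : ℝ) ^ 2 / n ≤ c' / 2 := by
    rw [div_le_iff₀ hn0]
    rw [div_le_iff₀ hc'0] at hn2
    linarith
  have h10 : 0 < n ^ (5 * K) := by positivity
  nlinarith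

end Pool.Agent.W327.HRC
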